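import Pool.Agent.Helper25_CON.Stmts

/-!
Squad CON, module B_DIV: an isotropic vector with divisor 1.
-/

noncomputable section

set_option autoImplicit false

namespace Pool.Agent.CON.H13

open Pool.Agent.CON Pool.Agent.H25Cong

section BDiv

variable {A : Type} [AddCommGroup A] {b : A → A → ℤ} {q : A → ℤ}

lemma qf_add_right (h : QF b q) (x y z : A) : b x (y + z) = b x y + b x z := by
  rw [h.symm, h.add_left, h.symm y, h.symm z]

/-- the functional given by a vector -/
def qf_hom (h : QF b q) (y : A) : A →+ ℤ :=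
  AddMonoidHom.mk' (fun x => b x y) (fun x x' => h.add_left x x' y)

lemma qf_hom_ap (h : QF b q) (x y : A) : qf_hom h y x = b x y := rfl

lemma qf_zsmul_left (h : QF b q) (c : ℤ) (x y : A) : b (c • x) y = c * b x y := by
  have := map_zsmul (qf_hom h y) c x
  simpa [qf_hom_ap] using this

lemma qf_zsmul_right (h : QF b q) (c : ℤ) (x y : A) : b x (c • y) = c * b x y := by
  rw [h.symm, qf_zsmul_left h, h.symm y]

lemma qf_q_zsmul (h : QF b q) (c : ℤ) (x : A) : q (c • x) = c ^ 2 * q x := by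
  have h1 := h.self (c • x)
  rw [qf_zsmul_left h, qf_zsmul_right h, h.self] at h1
  linarith [h1]

/-- the divisor of a functional -/
lemma dvs (g : A →+ ℤ) : ∃ d : ℕ, (∀ x, (d : ℤ) ∣ g x) ∧ ∃ w, g w = -(d : ℤ) := by
  obtain ⟨a, ha⟩ := Int.subgroup_cyclic g.range
  refine ⟨a.natAbs, fun x => ?_, ?_⟩
  · have hx : g x ∈ g.range := ⟨x, rfl⟩
    rw [ha, AddSubgroup.mem_closure_singleton] at hx
    obtain ⟨k, hk⟩ := hx
    rw [Int.natAbs_dvd, ← hk]
    exact ⟨k, by simp [mul_comm]⟩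
  · have hx : a ∈ g.range := by
      rw [ha]; exact AddSubgroup.subset_closure rfl
    obtain ⟨x, hx⟩ := hx
    rcases Int.natAbs_eq a with h1 | h1
    · exact ⟨-x, by rw [map_neg, hx, ← h1]⟩
    · exact ⟨x, by rw [hx, ← h1]⟩

lemma IndA_mono {Y : AddSubgroup A} {p k l : ℕ} (hkl : k ≤ l) (h0 : QF b q)
    (h : IndA b Y p l) : IndA b Y p k := by
  classical
  obtain ⟨c, hc, hi⟩ := h
  refine ⟨fun i => c (Fin.castLE hkl i), fun i => hc _, ?_⟩
  intro z hz i
  let z' : Fin l → ℤ := fun j => if hj : (j : ℕ) < k then z ⟨j, hj⟩ else 0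
  have hsum : ∑ j, z' j • c j = ∑ i, z i • c (Fin.castLE hkl i) := by
    have hinj : Function.Injective (Fin.castLE hkl) := Fin.castLE_injective hkl
    have h1 : ∑ i, z i • c (Fin.castLE hkl i)
        = ∑ j ∈ Finset.univ.image (Fin.castLE hkl), z' j • c j := by
      rw [Finset.sum_image hinj.injOn]
      apply Finset.sum_congr rfl
      intro i _
      simp [z']
    rw [h1]
    symm
    apply Finset.sum_subset (Finset.subset_univ _)
    intro j _ hj
    have hj' : ¬ (j : ℕ) < k := by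
      intro hlt
      apply hj
      rw [Finset.mem_image]
      exact ⟨⟨j, hlt⟩, Finset.mem_univ _, Fin.ext rfl⟩
    simp [z', hj']
  have h1 := hi z' (by rw [hsum]; exact hz) (Fin.castLE hkl i)
  simpa [z'] using h1

lemma div_abs (hHYP : B_HYP) (hKER : B_KER) (hHEN : B_HEN) (h : QF b q)
    (hind : ∀ p : ℕ, p.Prime → IndA b ⊤ p 5) (e0 : A) (he0 : q e0 = 0)
    (hne : ∃ x, b x e0 ≠ 0) : ∃ e f, q e = 0 ∧ q f = 0 ∧ b e f = -1 := by
  classical
  obtain ⟨d, hdv, w0, hw0⟩ := dvs (qf_hom h e0)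
  rw [qf_hom_ap] at hw0
  have hdv' : ∀ x, (d : ℤ) ∣ b x e0 := hdv
  have hd : 0 < d := by
    rcases Nat.eq_zero_or_pos d with h0 | h0
    · exfalso
      obtain ⟨x, hx⟩ := hne
      apply hx
      have := hdv' x
      rw [h0] at this
      simpa using this
    · exact h0
  have hdZ : (d : ℤ) ≠ 0 := by positivity
  -- the functional
  let φ : A →+ ℤ := AddMonoidHom.mk' (fun x => -(b x e0 / d)) (fun x x' => by
    rw [h.add_left, Int.add_ediv_of_dvd_left (hdv' x)]; ring)
  have hφ : ∀ x, b x e0 = - d * φ x := by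
    intro x
    have : φ x = -(b x e0 / d) := rfl
    rw [this]
    have h1 := Int.mul_ediv_cancel' (hdv' x)
    linarith
  have hφ0 : φ w0 = 1 := by
    have h1 := hφ w0
    rw [hw0] at h1
    have h2 : (d : ℤ) * φ w0 = d * 1 := by linarith
    exact mul_left_cancel₀ hdZ h2
  let Y : AddSubgroup A := φ.ker
  have hY : ∀ y, y ∈ Y ↔ φ y = 0 := fun y => AddMonoidHom.mem_ker
  -- local vectors
  have hloc : ∀ p : ℕ, ∃ y y' : A, p.Prime → p ∣ d → y ∈ Y ∧ y' ∈ Y ∧
      (p : ℤ) ∣ q (w0 + y) - 0 ∧ ¬ (p : ℤ) ∣ b (w0 + y) y' := by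
    intro p
    by_cases hp : p.Prime
    · have h3 : IndA b Y p 3 := hKER A b q Y p 3 φ w0 h hp hφ0 hY (hind p hp)
      obtain ⟨u, hu, w, hw, hq1, hq2, hb⟩ := hHYP A b q Y p h hp h3
      set a : ℤ := 1 - b w0 w with ha
      set be : ℤ := - b w0 u * a - q w0 with hbe
      refine ⟨a • u + be • w, w, fun _ _ => ⟨?_, hw, ?_, ?_⟩⟩
      · exact Y.add_mem (Y.zsmul_mem hu a) (Y.zsmul_mem hw be)
      · have h4 : q (w0 + (a • u + be • w)) = q w0 + (a ^ 2 * q u + be ^ 2 * q w
            + a * (be * b u w)) + (a * b w0 u + be * b w0 w) := by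
          rw [h.q_add, h.q_add, qf_q_zsmul h, qf_q_zsmul h, qf_zsmul_left h, qf_zsmul_right h,
            qf_add_right h, qf_zsmul_right h, qf_zsmul_right h]
        rw [h4]
        obtain ⟨k1, hk1⟩ := hq1
        obtain ⟨k2, hk2⟩ := hq2
        obtain ⟨k3, hk3⟩ := hb
        have hk3' : b u w = 1 + p * k3 := by linarith
        have hB : b w0 w = 1 - a := by rw [ha]; ring
        have hA : b w0 u * a = - be - q w0 := by rw [hbe]; ring
        refine ⟨a ^ 2 * k1 + be ^ 2 * k2 + a * be * k3, ?_⟩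
        rw [hk1, hk2, hk3', hB]
        have : a * b w0 u = - be - q w0 := by rw [mul_comm]; exact hA
        rw [this]
        ring
      · intro hdvd
        have h5 : b (w0 + (a • u + be • w)) w = b w0 w + (a * b u w + be * (2 * q w)) := by
          rw [h.add_left, h.add_left, qf_zsmul_left h, qf_zsmul_left h, h.self]
        rw [h5] at hdvd
        obtain ⟨k2, hk2⟩ := hq2
        obtain ⟨k3, hk3⟩ := hb
        have hk3' : b u w = 1 + p * k3 := by linarith
        have hB : b w0 w = 1 - a := by rw [ha]; ring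
        rw [hk2, hk3', hB] at hdvd
        have h6 : (1 - a + (a * (1 + p * k3) + be * (2 * (p * k2))) : ℤ)
            = 1 + p * (a * k3 + 2 * be * k2) := by ring
        rw [h6] at hdvd
        have h7 : (p : ℤ) ∣ 1 := (Int.dvd_add_left (Dvd.intro _ rfl)).mp hdvd
        have h8 : (p : ℕ) ∣ 1 := by exact_mod_cast h7
        exact hp.one_lt.ne' (Nat.dvd_one.mp h8)
    · exact ⟨0, 0, fun h1 => absurd h1 hp⟩
  choose y y' hyy using hloc
  obtain ⟨v, hvY, ⟨t, ht⟩, hvs⟩ := hHEN A b q Y w0 0 d y y' h hd hyy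
  rw [sub_zero] at ht
  -- the isotropic vector
  set w : A := w0 + v with hw
  have hwe : b w e0 = - d := by
    rw [hφ w, hw, map_add, hφ0, (hY v).mp hvY]
    ring
  have hew : b e0 w = - d := by rw [h.symm]; exact hwe
  have hee : b e0 e0 = 0 := by rw [h.self, he0]; ring
  set e : A := t • e0 + w with he
  have hqe : q e = 0 := by
    rw [he, h.q_add, qf_q_zsmul h, he0, qf_zsmul_left h, hew, ht]
    ring
  obtain ⟨g, hg, f1, hf1⟩ := dvs (qf_hom h e)
  rw [qf_hom_ap] at hf1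
  have hg' : ∀ x, (g : ℤ) ∣ b x e := hg
  have hg1 : g = 1 := by
    by_contra hne1
    obtain ⟨p, hp, hpg⟩ := Nat.exists_prime_and_dvd hne1
    have hpg' : (p : ℤ) ∣ g := by exact_mod_cast hpg
    have hall : ∀ x, (p : ℤ) ∣ b x e := fun x => hpg'.trans (hg' x)
    have hpd' : (p : ℤ) ∣ d := by
      have h1 := hall e0
      rw [he, qf_add_right h, qf_zsmul_right h, hee, hew] at h1
      have h2 : (t * 0 + -(d : ℤ)) = -(d : ℤ) := by ring
      rw [h2] at h1
      exact (dvd_neg).mp h1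
    have hpd : p ∣ d := by exact_mod_cast hpd'
    obtain ⟨-, -, -, h3⟩ := hyy p hp hpd
    obtain ⟨s, -, hs⟩ := hvs p hp hpd
    apply h3
    have h4 := hall (y' p)
    rw [he, qf_add_right h, qf_zsmul_right h] at h4
    have h5 : (p : ℤ) ∣ t * b (y' p) e0 := Dvd.dvd.mul_left (hpd'.trans (hdv' _)) _
    have h6 : (p : ℤ) ∣ b (y' p) w := (Int.dvd_add_right h5).mp h4
    have h7 : w0 + y p = w - (p : ℤ) • s := by
      rw [hw, ← hs]; abel
    rw [h7, h.symm, sub_eq_add_neg, qf_add_right h, ← neg_zsmul, qf_zsmul_right h]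
    refine dvd_add h6 ?_
    exact ⟨- b (y' p) s, by ring⟩
  have hf1' : b f1 e = -1 := by rw [hf1, hg1]; simp
  refine ⟨e, f1 + (q f1) • e, hqe, ?_, ?_⟩
  · rw [h.q_add, qf_q_zsmul h, hqe, qf_zsmul_right h, hf1']
    ring
  · rw [qf_add_right h, h.symm, hf1', qf_zsmul_right h, h.self, hqe]
    ring

end BDiv

section Transfer

variable {n : ℕ} {L : Submodule ℤ (V n)}

/-- the integral form on L -/
def bL (L : Submodule ℤ (V n)) (x y : L) : ℤ := ⌊B (x : V n) (y : V n)⌋

/-- half the norm on L -/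
def qL (L : Submodule ℤ (V n)) (x : L) : ℤ := ⌊B (x : V n) (x : V n) / 2⌋

lemma bL_cast (hL : EvenLat L) (x y : L) : ((bL L x y : ℤ) : ℝ) = B (x : V n) (y : V n) := by
  obtain ⟨k, hk⟩ := hL.int x x.2 y y.2
  unfold bL
  rw [hk, Int.floor_intCast]

lemma qL_cast (hL : EvenLat L) (x : L) : ((qL L x : ℤ) : ℝ) = B (x : V n) (x : V n) / 2 := by
  obtain ⟨k, hk⟩ := hL.even x x.2
  unfold qL
  rw [hk, mul_div_cancel_left₀ _ (two_ne_zero), Int.floor_intCast]

lemma qfL (hL : EvenLat L) : QF (bL L) (qL L) where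
  add_left x y z := by
    have : ((bL L (x + y) z : ℤ) : ℝ) = ((bL L x z + bL L y z : ℤ) : ℝ) := by
      push_cast
      rw [bL_cast hL, bL_cast hL, bL_cast hL, Submodule.coe_add, B_add_left]
    exact_mod_cast this
  symm x y := by
    unfold bL; rw [B_comm]
  self x := by
    have : ((bL L x x : ℤ) : ℝ) = ((2 * qL L x : ℤ) : ℝ) := by
      push_cast
      rw [bL_cast hL, qL_cast hL]; ring
    exact_mod_cast this
  q_add x y := by
    have : ((qL L (x + y) : ℤ) : ℝ) = ((qL L x + qL L y + bL L x y : ℤ) : ℝ) := by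
      push_cast
      rw [bL_cast hL, qL_cast hL, qL_cast hL, qL_cast hL, Submodule.coe_add, B_add_left,
        B_add_right, B_add_right, B_comm (y : V n) (x : V n)]
      ring
    exact_mod_cast this

lemma indL (hL : EvenLat L) {p k : ℕ} (h : Ind L p k) : IndA (bL L) ⊤ p k := by
  obtain ⟨c, hc, hi⟩ := h
  refine ⟨fun i => ⟨c i, hc i⟩, fun _ => AddSubgroup.mem_top _, ?_⟩
  intro z hz
  apply hi z
  intro y hy
  obtain ⟨j, hj⟩ := hz ⟨y, hy⟩ (AddSubgroup.mem_top _)
  refine ⟨j, ?_⟩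
  have h1 := bL_cast hL (∑ i, z i • (⟨c i, hc i⟩ : L)) ⟨y, hy⟩
  rw [hj] at h1
  have h2 : ((∑ i, z i • (⟨c i, hc i⟩ : L) : L) : V n) = ∑ i, (z i : ℝ) • c i := by
    rw [Submodule.coe_sum]
    refine Finset.sum_congr rfl fun i _ => ?_
    rw [Int.cast_smul_eq_zsmul]
    rfl
  rw [h2] at h1
  rw [← h1]
  push_cast
  ring

lemma exists_ne (hL : EvenLat L) {e : V n} (he : e ≠ 0) : ∃ x ∈ L, B x e ≠ 0 := by
  by_contra hcon
  push Not at hcon
  obtain ⟨bs, hbs⟩ := hL.lat
  have h1 : ∀ x : V n, B x e = 0 := by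
    intro x
    have hx := bs.sum_repr x
    rw [← hx, B_sum_left]
    apply Finset.sum_eq_zero
    intro i _
    rw [B_smul_left, hcon (bs i) (by rw [hbs]; exact Submodule.subset_span ⟨i, rfl⟩), mul_zero]
  apply he
  funext i
  rcases eq_or_ne i 0 with rfl | hi
  · have h2 := h1 (ep 0)
    rw [B_comm, B_ep_zero] at h2
    simpa using h2
  · have h2 := h1 (ep i)
    rw [B_comm, B_ep _ hi] at h2
    simpa using h2

end Transfer

/-- B6: an isotropic vector with divisor 1 -/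
theorem b_div (hHYP : B_HYP) (hKER : B_KER) (hHEN : B_HEN) : B_DIV := by
  intro n L hL hind ⟨e0, he0, hne, hiso⟩
  have hq := qfL hL
  have hq0 : qL L ⟨e0, he0⟩ = 0 := by
    have : ((qL L ⟨e0, he0⟩ : ℤ) : ℝ) = ((0 : ℤ) : ℝ) := by
      rw [qL_cast hL]; simp [hiso]
    exact_mod_cast this
  obtain ⟨x, hx, hxe⟩ := exists_ne hL hne
  obtain ⟨e, f, h1, h2, h3⟩ := div_abs hHYP hKER hHEN hq
    (fun p hp => IndA_mono (by norm_num) hq (indL hL (hind p hp))) ⟨e0, he0⟩ hq0
    ⟨⟨x, hx⟩, by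
      intro h0
      apply hxe
      have := bL_cast hL ⟨x, hx⟩ ⟨e0, he0⟩
      rw [h0] at this
      simpa using this.symm⟩
  refine ⟨e, e.2, f, f.2, ?_, ?_, ?_⟩
  · have := qL_cast hL e
    rw [h1] at this
    push_cast at this
    linarith
  · have := qL_cast hL f
    rw [h2] at this
    push_cast at this
    linarith
  · rw [← bL_cast hL, h3]
    push_cast
    ring

end Pool.Agent.CON.H13

end
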