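import Pool.Agent.Helper25_CON.PDLem

/-!
Squad CON, module E_COM: the irreducible components of a root system.
-/

noncomputable section

set_option autoImplicit false

namespace Pool.Agent.CON.H13

open Pool.Agent.CON

section ECom

variable {M : Type} [AddCommGroup M] {b : M → M → ℤ} {R : Set M}

/-- adjacency of roots -/
def adj (b : M → M → ℤ) (R : Set M) (x y : R) : Prop := b x y ≠ 0

/-- the equivalence relation generated by adjacency -/
def cls (b : M → M → ℤ) (R : Set M) : Setoid R := Relation.EqvGen.setoid (adj b R)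

/-- the component given by a class -/
def cmp (b : M → M → ℤ) (R : Set M) (q : Quotient (cls b R)) : Set M :=
  {x | ∃ h : x ∈ R, Quotient.mk (cls b R) ⟨x, h⟩ = q}

lemma cmp_sub (q : Quotient (cls b R)) {x : M} (hx : x ∈ cmp b R q) : x ∈ R := hx.1

lemma mem_cmp_of_adj {q : Quotient (cls b R)} {x y : M} (hx : x ∈ cmp b R q) (hy : y ∈ R)
    (h : b x y ≠ 0) : y ∈ cmp b R q := by
  obtain ⟨hxR, hq⟩ := hx
  refine ⟨hy, ?_⟩
  rw [← hq]
  apply Quotient.sound
  exact Relation.EqvGen.symm _ _ (Relation.EqvGen.rel _ _ h)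

lemma norm_eqv (hR : RS b R) {x y : R} (h : Relation.EqvGen (adj b R) x y) :
    b x x = b y y := by
  induction h with
  | rel x y h => exact hR.norm _ x.2 _ y.2 h
  | refl x => rfl
  | symm x y _ h => exact h.symm
  | trans x y z _ _ h1 h2 => exact h1.trans h2

lemma cmp_eqv {q : Quotient (cls b R)} {x y : M} (hx : x ∈ cmp b R q) (hy : y ∈ cmp b R q) :
    Relation.EqvGen (adj b R) ⟨x, hx.1⟩ ⟨y, hy.1⟩ := by
  obtain ⟨hxR, hq⟩ := hx
  obtain ⟨hyR, hq'⟩ := hy
  have := hq.trans hq'.symm
  exact Quotient.exact this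

lemma linInd_of_orth (hb : PD b) {ι : Type} (v : ι → M) (hv : ∀ i, v i ≠ 0)
    (ho : ∀ i j, i ≠ j → b (v i) (v j) = 0) : LinearIndependent ℤ v := by
  classical
  rw [linearIndependent_iff']
  intro s g hg i hi
  have h1 : b (∑ j ∈ s, g j • v j) (v i) = 0 := by rw [hg, hb.zero_left]
  rw [hb.sum_left, Finset.sum_eq_single i] at h1
  · rw [hb.zsmul_left] at h1
    rcases mul_eq_zero.mp h1 with h2 | h2
    · exact h2
    · exact absurd h2 (hb.pos _ (hv i)).ne'
  · intro j _ hj
    rw [hb.zsmul_left, ho j i hj, mul_zero]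
  · intro h; exact absurd hi h

lemma cls_finite [Module.Finite ℤ M] (hb : PD b) (hR : RS b R) :
    Finite (Quotient (cls b R)) := by
  have h : LinearIndependent ℤ (fun q : Quotient (cls b R) => (q.out : M)) := by
    apply linInd_of_orth hb
    · intro q
      exact hR.ne _ q.out.2
    · intro q q' hq
      by_contra h
      apply hq
      have h1 : Quotient.mk (cls b R) q.out = Quotient.mk (cls b R) q'.out :=
        Quotient.sound (Relation.EqvGen.rel _ _ h)
      rwa [Quotient.out_eq, Quotient.out_eq] at h1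
  exact LinearIndependent.finite_of_isNoetherian h

lemma exists_rk [Module.Finite ℤ M] (C : Set M) : ∃ r : ℕ, Rk C r ∧ ¬ Rk C (r + 1) := by
  by_contra hcon
  push Not at hcon
  have h0 : Rk C 0 := ⟨fun i => i.elim0, fun i => i.elim0, linearIndependent_empty_type⟩
  have h1 : ∀ k, Rk C k := by
    intro k
    induction k with
    | zero => exact h0
    | succ k ih => exact hcon k ih
  obtain ⟨c, -, hc⟩ := h1 (Module.finrank ℤ M + 1)
  have := hc.fintype_card_le_finrank
  rw [Fintype.card_fin] at this
  omega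

lemma cmp_irr (hb : PD b) (hR : RS b R) (q : Quotient (cls b R)) :
    ∃ s : ℤ, Irr b (cmp b R q) s := by
  have hq : (q.out : M) ∈ cmp b R q := ⟨q.out.2, by simp⟩
  obtain ⟨s, hs⟩ := hb.even (q.out : M)
  have hnorm : ∀ α ∈ cmp b R q, b α α = 2 * s := by
    intro α hα
    have := norm_eqv hR (cmp_eqv hα hq)
    simp only at this
    rw [this, hs]
  have hpos : 0 < s := by
    have := hb.pos _ (hR.ne _ q.out.2)
    omega
  refine ⟨s, ⟨⟨_, hq⟩, hpos, hnorm, ?_, ?_, ?_⟩⟩
  · intro α hα β hβ
    have h1 := hR.dvd α hα.1 β hβ.1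
    rw [hnorm α hα] at h1
    exact (mul_dvd_mul_iff_left (two_ne_zero)).mp h1
  · intro α hα β hβ k hk
    have h1 : β - k • α ∈ R := by
      apply hR.refl α hα.1 β hβ.1 k
      rw [hk, hnorm α hα]; ring
    rcases eq_or_ne k 0 with rfl | hk0
    · simpa using hβ
    · apply mem_cmp_of_adj hα h1
      rw [hb.sub_right, hb.zsmul_right, hk, hnorm α hα]
      intro h
      have h2 : k * s = 0 := by linarith
      rcases mul_eq_zero.mp h2 with h3 | h3
      · exact hk0 h3
      · omega
  · intro D hD hDne hDC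
    apply Set.Subset.antisymm hD
    obtain ⟨α, hα⟩ := hDne
    -- closure of membership under adjacency
    have key : ∀ x y : R, Relation.EqvGen (adj b R) x y → (x : M) ∈ cmp b R q →
        ((x : M) ∈ D ↔ (y : M) ∈ D) ∧ (y : M) ∈ cmp b R q := by
      intro x y h
      have hmem : ∀ x y : R, Relation.EqvGen (adj b R) x y → (x : M) ∈ cmp b R q →
          (y : M) ∈ cmp b R q := by
        intro x y h hx
        refine ⟨y.2, ?_⟩
        rw [← hx.2]
        exact (Quotient.sound h).symm
      induction h with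
      | rel x y h =>
        intro hx
        have hy : (y : M) ∈ cmp b R q := hmem x y (Relation.EqvGen.rel _ _ h) hx
        refine ⟨⟨fun hxD => ?_, fun hyD => ?_⟩, hy⟩
        · by_contra hyD
          exact h (hDC _ hxD _ hy hyD)
        · by_contra hxD
          exact h (by rw [hb.symm]; exact hDC _ hyD _ hx hxD)
      | refl x => intro hx; exact ⟨Iff.rfl, hx⟩
      | symm x y h ih =>
        intro hx
        have hy := hmem y x (Relation.EqvGen.symm _ _ h) hx
        exact ⟨(ih hy).1.symm, hy⟩
      | trans x y z h1 h2 ih1 ih2 =>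
        intro hx
        have h3 := ih1 hx
        have h4 := ih2 h3.2
        exact ⟨h3.1.trans h4.1, h4.2⟩
    intro β hβ
    have h1 := key ⟨α, (hD hα).1⟩ ⟨β, hβ.1⟩ (cmp_eqv (hD hα) hβ) (hD hα)
    exact h1.1.mp hα

end ECom

/-- E2: components -/
theorem e_com : E_COM := by
  intro M _ _ b R hb hR
  classical
  haveI := cls_finite hb hR
  let k := Nat.card (Quotient (cls b R))
  let e : Quotient (cls b R) ≃ Fin k := Finite.equivFin _
  choose s hs using cmp_irr hb hR
  choose r hr hr' using fun q : Quotient (cls b R) => exists_rk (cmp b R q)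
  refine ⟨k, fun i => cmp b R (e.symm i), fun i => s (e.symm i), fun i => r (e.symm i), ?_⟩
  refine ⟨fun i => hs _, ?_, ?_, fun i => hr _, fun i => hr' _⟩
  · intro i j hij α hα β hβ
    by_contra h
    have h1 := mem_cmp_of_adj hα hβ.1 h
    apply hij
    have h2 : e.symm i = e.symm j := h1.2.symm.trans hβ.2
    exact e.symm.injective h2
  · intro x
    have h1 : R ⊆ ⋃ i, cmp b R (e.symm i) := by
      intro y hy
      exact Set.mem_iUnion.mpr ⟨e (Quotient.mk (cls b R) ⟨y, hy⟩), hy, by simp⟩
    exact AddSubgroup.closure_mono h1 (hR.gen x)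

end Pool.Agent.CON.H13

end
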